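import Pool.Agent.W905.TM.Comb

/-!
# LC: disjoint sets on which the labellings of a tame family are mostly constant
-/

set_option autoImplicit false

namespace Pool.Agent.W976.TM

open Finset Pool.Agent.W905.TM

open Classical in
theorem lc_aux (h : S_STEP) {J P X : Type} [Fintype J] [Fintype P] [DecidableEq P]
    [DecidableEq X] (a : J → P → X) (c v m k : ℕ) (ρ : ℝ) (ha : Tame c v a) (hk : 1 ≤ k)
    (h0 : 0 ≤ ρ) (h1 : ρ ≤ 1) (hP : (Fintype.card P : ℝ) ^ m * (1 - ρ) ^ k < 1) :
    ∀ N : ℕ, m * (c * k ^ v) + N * m < Fintype.card P → m + N * m ≤ Fintype.card P →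
    ∃ M : Fin N → Finset P, (∀ l, (M l).card = m) ∧ (∀ l l', l ≠ l' → Disjoint (M l) (M l')) ∧
      ∑ j, (2 : ℝ) ^ (univ.filter fun l => ¬ Const (a j) (M l)).card ≤
        Fintype.card J * (1 + ρ) ^ N := by
  intro N
  induction N with
  | zero =>
    intro _ _
    refine ⟨fun l => l.elim0, fun l => l.elim0, fun l => l.elim0, ?_⟩
    simp
  | succ N ih =>
    intro h2 h3
    have h4 : (N + 1) * m = N * m + m := by ring
    rw [h4] at h2 h3
    obtain ⟨M, hM, hd, hs⟩ := ih (by omega) (by omega)
    set R : Finset P := univ \ univ.biUnion M with hR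
    have hRc : R.card + N * m = Fintype.card P := by
      have e1 : (univ.biUnion M).card = N * m := by
        rw [Finset.card_biUnion fun l _ l' _ hl => hd l l' hl]
        simp [hM]
      have e2 := Finset.card_sdiff_add_card_eq_card (Finset.subset_univ (univ.biUnion M))
      rw [e1, Finset.card_univ] at e2
      exact e2
    have hRle : (R.card : ℝ) ≤ Fintype.card P := by
      have : R.card ≤ Fintype.card P := by omega
      exact_mod_cast this
    obtain ⟨M', hM', hM'c, hM's⟩ := h a c v m k ρ R
      (fun j => (2 : ℝ) ^ (univ.filter fun l => ¬ Const (a j) (M l)).card) ha hk h0 h1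
      (fun j => by positivity)
      (lt_of_le_of_lt (mul_le_mul_of_nonneg_right
        (pow_le_pow_left₀ (Nat.cast_nonneg _) hRle m)
        (pow_nonneg (by linarith) k)) hP)
      (by omega) (by omega)
    have hdM : ∀ l, Disjoint (M l) M' := by
      intro l
      rw [Finset.disjoint_left]
      intro x hx hx'
      have e1 := hM' hx'
      rw [hR, Finset.mem_sdiff] at e1
      exact e1.2 (Finset.mem_biUnion.2 ⟨l, Finset.mem_univ _, hx⟩)
    refine ⟨Fin.snoc (α := fun _ => Finset P) M M', ?_, ?_, ?_⟩
    · intro l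
      refine Fin.lastCases ?_ (fun l => ?_) l
      · rw [Fin.snoc_last]
        exact hM'c
      · rw [Fin.snoc_castSucc]
        exact hM l
    · intro l l'
      refine Fin.lastCases ?_ (fun l => ?_) l
      · refine Fin.lastCases (fun hl => absurd rfl hl) (fun l' _ => ?_) l'
        rw [Fin.snoc_last, Fin.snoc_castSucc]
        exact (hdM l').symm
      · refine Fin.lastCases (fun _ => ?_) (fun l' hl => ?_) l'
        · rw [Fin.snoc_last, Fin.snoc_castSucc]
          exact hdM l
        · rw [Fin.snoc_castSucc, Fin.snoc_castSucc]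
          exact hd l l' fun e => hl (by rw [e])
    · have e1 : ∀ j, (2 : ℝ) ^ (univ.filter fun l => ¬ Const (a j)
          (Fin.snoc (α := fun _ => Finset P) M M' l)).card =
          (2 : ℝ) ^ (univ.filter fun l => ¬ Const (a j) (M l)).card +
          if ¬ Const (a j) M' then (2 : ℝ) ^ (univ.filter fun l => ¬ Const (a j) (M l)).card
            else 0 := by
        intro j
        have e2 : (univ.filter fun l => ¬ Const (a j)
            (Fin.snoc (α := fun _ => Finset P) M M' l)).card =
            (univ.filter fun l => ¬ Const (a j) (M l)).card + if ¬ Const (a j) M' then 1 else 0 := by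
          rw [Finset.card_filter, Finset.card_filter, Fin.sum_univ_castSucc]
          simp only [Fin.snoc_castSucc, Fin.snoc_last]
        rw [e2]
        split_ifs
        · rw [add_zero, add_zero]
        · rw [pow_succ]
          ring
      rw [Finset.sum_congr rfl fun j _ => e1 j, Finset.sum_add_distrib, ← Finset.sum_filter]
      have e3 : (0 : ℝ) ≤ 1 + ρ := by linarith
      calc _ ≤ ∑ j, (2 : ℝ) ^ (univ.filter fun l => ¬ Const (a j) (M l)).card +
            ρ * ∑ j, (2 : ℝ) ^ (univ.filter fun l => ¬ Const (a j) (M l)).card :=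
            add_le_add le_rfl hM's
        _ = (1 + ρ) * ∑ j, (2 : ℝ) ^ (univ.filter fun l => ¬ Const (a j) (M l)).card := by ring
        _ ≤ (1 + ρ) * (Fintype.card J * (1 + ρ) ^ N) := mul_le_mul_of_nonneg_left hs e3
        _ = Fintype.card J * (1 + ρ) ^ (N + 1) := by ring

open Classical in
theorem lc (h : S_STEP) : S_LC := by
  intro J P X _ _ _ _ a c v m k N ρ ha hk h0 h1 hP h2 h3
  obtain ⟨M, hM, hd, hs⟩ := lc_aux h a c v m k ρ ha hk h0 h1 hP N h2 h3
  refine ⟨M, hM, hd, fun j => le_trans ?_ hs⟩
  exact Finset.single_le_sum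
    (f := fun j => (2 : ℝ) ^ (univ.filter fun l => ¬ Const (a j) (M l)).card)
    (fun j _ => by positivity) (Finset.mem_univ j)

end Pool.Agent.W976.TM
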